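import Mathlib

set_option autoImplicit false

/-!
# A state-only height bound for equivalence of top-down tree transducers

We show that `H n₁ n₂ = (n + 2) * 2 ^ n` with `n = n₁ + n₂` has the property asked for: two
deterministic top-down tree transducers with `n₁` and `n₂` states which agree on all input trees
of height at most `H n₁ n₂` are equivalent.

Put the two transducers side by side, and let `Q` be the set of all their states.  For an input tree
`t` let `D t ⊆ Q` be the set of the states `q` for which the output `z t q` is defined.  For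
`Y ⊆ Q` and a number `h` let `E Y h` be the set of the pairs `(u, v)` of terms over the output
alphabet with variables in `Y` such that `u` and `v` take the same value under `z t` for all `t` of
height at most `h` with `Y ⊆ D t`.  If `E Y h = E Y (h + 1)` for all `Y`, then these sets remain
constant from `h` on: in a tree `a(t₁, …, t_k)` the subtrees can be exchanged one by one.  On
the other hand for fixed `Y` the sequence `E Y 0 ⊇ E Y 1 ⊇ ⋯` has at most `|Y| + 1` jumps,
whatever the alphabets and the rules are: before the last jump a non-trivial equation holds, and it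
implies (unification) an equation `x = w` with `x ∈ Y` and a term `w` not containing `x`, so `x` can
be eliminated.
-/

namespace Pool.Agent.Results.MP_460c01_lc.StateOnlyBound

/-- A ranked alphabet. -/
structure Ranked where
  Sym : Type
  rank : Sym → ℕ

/-- The (finite) trees over a ranked alphabet. -/
inductive Tree (A : Ranked) : Type
  | node (a : A.Sym) (t : Fin (A.rank a) → Tree A) : Tree A

/-- The trees over a ranked alphabet whose leaves may also be elements of `X`. -/
inductive Term (A : Ranked) (X : Type) : Type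
  | var (x : X) : Term A X
  | node (a : A.Sym) (t : Fin (A.rank a) → Term A X) : Term A X

variable {A B : Ranked} {X Y : Type}

/-- The height of a tree: the number of nodes on a longest path from the root to a leaf. -/
def Tree.height : Tree A → ℕ
  | .node _ t => (Finset.univ.sup fun i => (t i).height) + 1

/-- Replacing every leaf `x ∈ X` by the tree `v x`; the result is defined iff all the trees `v x`
with `x` occurring in the term are defined. -/
def Term.eval? (v : X → Option (Tree A)) : Term A X → Option (Tree A)
  | .var x => v x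
  | .node a t =>
    if h : ∀ i, ((t i).eval? v).isSome then some (Tree.node a fun i => ((t i).eval? v).get (h i))
    else none

/-- A deterministic top-down tree transducer with input alphabet `A` and output alphabet `B`.  The
rule `q(a(x_1, …, x_k)) → ζ` is given by `rule q a = some ζ`, where the leaf `(q', i)` of `ζ`
stands for `q'(x_i)`; there is no rule for `(q, a)` if `rule q a = none`. -/
structure Transducer (A B : Ranked) where
  Q : Type
  [fin : Fintype Q]
  init : Q
  rule : Q → (a : A.Sym) → Option (Term B (Q × Fin (A.rank a)))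

/-- The output of a transducer on a tree, started in the state `q`. -/
def Transducer.run (M : Transducer A B) : Tree A → M.Q → Option (Tree B)
  | .node a t => fun q => (M.rule q a).bind fun ζ => ζ.eval? fun x => M.run (t x.2) x.1

/-- The partial function realized by a transducer. -/
def Transducer.tau (M : Transducer A B) (s : Tree A) : Option (Tree B) := M.run s M.init

/-- The number of states. -/
def Transducer.states (M : Transducer A B) : ℕ := @Fintype.card M.Q M.fin

/-! ### Terms -/

/-- Replacing every variable `x` by the tree `v x`. -/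
def Term.eval (v : X → Tree A) : Term A X → Tree A
  | .var x => v x
  | .node a t => Tree.node a fun i => (t i).eval v

/-- The variables of a term. -/
def Term.vars : Term A X → Set X
  | .var x => {x}
  | .node _ t => ⋃ i, (t i).vars

/-- Substitution. -/
def Term.subst (f : X → Term A Y) : Term A X → Term A Y
  | .var x => f x
  | .node a t => Term.node a fun i => (t i).subst f

/-- Trees as terms without variables. -/
def Tree.toTerm : Tree A → Term A X
  | .node a t => Term.node a fun i => (t i).toTerm

/-- The number of nodes of a tree. -/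
def Tree.size : Tree A → ℕ
  | .node _ t => (∑ i, (t i).size) + 1

theorem Term.eval_subst (f : X → Term A Y) (v : Y → Tree A) (t : Term A X) :
    (t.subst f).eval v = t.eval fun x => (f x).eval v := by
  induction t with
  | var x => rfl
  | node a t ih => simp only [Term.subst, Term.eval, ih]

theorem Tree.eval_toTerm (v : X → Tree A) (t : Tree A) : (t.toTerm : Term A X).eval v = t := by
  induction t with
  | node a t ih => simp only [Tree.toTerm, Term.eval, ih]

theorem Tree.vars_toTerm (t : Tree A) : (t.toTerm : Term A X).vars = ∅ := by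
  induction t with
  | node a t ih => simp only [Tree.toTerm, Term.vars, ih, Set.iUnion_empty]

theorem Term.mem_vars_subst (f : X → Term A Y) (t : Term A X) (y : Y) :
    y ∈ (t.subst f).vars ↔ ∃ x ∈ t.vars, y ∈ (f x).vars := by
  induction t with
  | var x => simp [Term.subst, Term.vars]
  | node a t ih =>
    simp only [Term.subst, Term.vars, Set.mem_iUnion, ih]
    constructor
    · rintro ⟨i, x, h1, h2⟩
      exact ⟨x, ⟨i, h1⟩, h2⟩
    · rintro ⟨x, ⟨i, h1⟩, h2⟩
      exact ⟨i, x, h1, h2⟩

theorem Term.eval_congr {v v' : X → Tree A} {t : Term A X} (h : ∀ x ∈ t.vars, v x = v' x) :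
    t.eval v = t.eval v' := by
  induction t with
  | var x => exact h x rfl
  | node a t ih =>
    simp only [Term.eval]
    congr 1
    funext i
    exact ih i fun x hx => h x (Set.mem_iUnion.2 ⟨i, hx⟩)

theorem Term.size_le {v : X → Tree A} {t : Term A X} {x : X} (h : x ∈ t.vars) :
    (v x).size ≤ (t.eval v).size := by
  induction t with
  | var y =>
    have : x = y := h
    subst this
    exact le_rfl
  | node a t ih =>
    obtain ⟨i, hi⟩ := Set.mem_iUnion.1 h
    simp only [Term.eval, Tree.size]
    have h1 := ih i hi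
    have h2 : ((t i).eval v).size ≤ ∑ i, ((t i).eval v).size :=
      Finset.single_le_sum (f := fun i => ((t i).eval v).size) (fun _ _ => Nat.zero_le _)
        (Finset.mem_univ i)
    omega

theorem Term.size_lt {v : X → Tree A} {a : A.Sym} {t : Fin (A.rank a) → Term A X} {x : X}
    (h : x ∈ (Term.node a t).vars) : (v x).size < ((Term.node a t).eval v).size := by
  obtain ⟨i, hi⟩ := Set.mem_iUnion.1 h
  simp only [Term.eval, Tree.size]
  have h1 := Term.size_le (v := v) hi
  have h2 : ((t i).eval v).size ≤ ∑ i, ((t i).eval v).size :=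
    Finset.single_le_sum (f := fun i => ((t i).eval v).size) (fun _ _ => Nat.zero_le _)
      (Finset.mem_univ i)
  omega

/-- The basic step of unification: a solvable non-trivial equation implies an equation `x = w`
with a variable `x` not occurring in the term `w`. -/
theorem Term.solve (u v : Term A X) (huv : u ≠ v) (z : X → Tree A) (hz : u.eval z = v.eval z) :
    ∃ (x : X) (w : Term A X), x ∈ u.vars ∪ v.vars ∧ w.vars ⊆ (u.vars ∪ v.vars) \ {x} ∧
      ∀ z' : X → Tree A, u.eval z' = v.eval z' → z' x = w.eval z' := by
  induction u generalizing v with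
  | var x =>
    cases v with
    | var y =>
      refine ⟨x, Term.var y, Or.inl rfl, ?_, fun z' h => h⟩
      intro t ht
      have : t = y := ht
      subst this
      refine ⟨Or.inr rfl, ?_⟩
      intro h
      have : t = x := h
      subst this
      exact huv rfl
    | node b s =>
      refine ⟨x, Term.node b s, Or.inl rfl, ?_, fun z' h => h⟩
      intro t ht
      refine ⟨Or.inr ht, ?_⟩
      intro h
      have : t = x := h
      subst this
      have h1 := Term.size_lt (v := z) ht
      rw [← hz] at h1
      exact lt_irrefl _ h1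
  | node a t ih =>
    cases v with
    | var y =>
      refine ⟨y, Term.node a t, Or.inr rfl, ?_, fun z' h => h.symm⟩
      intro x hx
      refine ⟨Or.inl hx, ?_⟩
      intro h
      have : x = y := h
      subst this
      have h1 := Term.size_lt (v := z) hx
      rw [hz] at h1
      exact lt_irrefl _ h1
    | node b s =>
      have hab : a = b := by
        simp only [Term.eval, Tree.node.injEq] at hz
        exact hz.1
      subst hab
      have hi : ∃ i, t i ≠ s i := by
        by_contra hcon
        push Not at hcon
        exact huv (congrArg _ (funext hcon))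
      obtain ⟨i, hi⟩ := hi
      have key : ∀ z' : X → Tree A, (Term.node a t).eval z' = (Term.node a s).eval z' →
          (t i).eval z' = (s i).eval z' := by
        intro z' h
        simp only [Term.eval, Tree.node.injEq, heq_eq_eq, true_and] at h
        exact congrFun h i
      obtain ⟨x, w, h1, h2, h3⟩ := ih i (s i) hi (key z hz)
      have hsub : (t i).vars ∪ (s i).vars ⊆ (Term.node a t).vars ∪ (Term.node a s).vars := by
        apply Set.union_subset_union
        · exact Set.subset_iUnion (fun i => (t i).vars) i
        · exact Set.subset_iUnion (fun i => (s i).vars) i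
      exact ⟨x, w, hsub h1, h2.trans (Set.sdiff_subset_sdiff_left hsub),
        fun z' h => h3 z' (key z' h)⟩

/-! ### Equations satisfied by sets of valuations -/

/-- The equations with variables in `V` satisfied by all the valuations in `S`. -/
def Eqs (V : Set X) (S : Set (X → Tree A)) : Set (Term A X × Term A X) :=
  {p | p.1.vars ⊆ V ∧ p.2.vars ⊆ V ∧ ∀ z ∈ S, p.1.eval z = p.2.eval z}

theorem Eqs.anti {V : Set X} {S S' : Set (X → Tree A)} (h : S ⊆ S') : Eqs V S' ⊆ Eqs V S :=
  fun _ hp => ⟨hp.1, hp.2.1, fun z hz => hp.2.2 z (h hz)⟩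

open Classical in
/-- The number of the jumps of the set of equations of an increasing sequence is at most the number
of variables plus one. -/
theorem jumps (V : Finset X) : ∀ S : ℕ → Set (X → Tree A), Monotone S → ∀ N : ℕ,
    ((Finset.range N).filter fun j => Eqs (V : Set X) (S j) ≠ Eqs (V : Set X) (S (j + 1))).card ≤
      V.card + 1 := by
  induction V using Finset.strongInduction with
  | H V ih =>
  intro S hS N
  obtain ⟨C, hC⟩ : ∃ C, C = (Finset.range N).filter fun j =>
    Eqs (V : Set X) (S j) ≠ Eqs (V : Set X) (S (j + 1)) := ⟨_, rfl⟩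
  rw [← hC]
  rcases C.eq_empty_or_nonempty with hemp | hne
  · rw [hemp]; simp
  obtain ⟨J, hJ⟩ : ∃ J, J = C.max' hne := ⟨_, rfl⟩
  have hJC : J ∈ C := hJ ▸ Finset.max'_mem C hne
  have hmax : ∀ j ∈ C, j ≤ J := fun j hj => hJ ▸ Finset.le_max' C j hj
  have hJ' : Eqs (V : Set X) (S J) ≠ Eqs (V : Set X) (S (J + 1)) := by
    rw [hC] at hJC
    exact (Finset.mem_filter.1 hJC).2
  -- a non-trivial equation at `J`
  obtain ⟨p, hp, hpne⟩ : ∃ p ∈ Eqs (V : Set X) (S J), p.1 ≠ p.2 := by
    by_contra hcon
    push Not at hcon
    apply hJ'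
    apply Set.Subset.antisymm
    · intro p hp
      refine ⟨hp.1, hp.2.1, fun z _ => ?_⟩
      rw [hcon p hp]
    · exact Eqs.anti (hS (Nat.le_succ J))
  have hsub : C ⊆ insert J ((Finset.range J).filter fun j =>
      Eqs (V : Set X) (S j) ≠ Eqs (V : Set X) (S (j + 1))) := by
    intro j hj
    rcases (hmax j hj).eq_or_lt with h | h
    · exact Finset.mem_insert.2 (Or.inl h)
    · refine Finset.mem_insert.2 (Or.inr (Finset.mem_filter.2 ⟨Finset.mem_range.2 h, ?_⟩))
      rw [hC] at hj
      exact (Finset.mem_filter.1 hj).2
  refine (Finset.card_le_card hsub).trans ((Finset.card_insert_le _ _).trans ?_)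
  apply Nat.succ_le_succ
  rcases (S J).eq_empty_or_nonempty with hSJ | ⟨z, hz⟩
  · -- no valuation: no jump below `J`
    rw [Finset.card_eq_zero.2]
    · exact Nat.zero_le _
    · apply Finset.filter_eq_empty_iff.2
      intro j hj
      have h1 : j < J := Finset.mem_range.1 hj
      have h2 : S j = ∅ := Set.subset_empty_iff.1 (hSJ ▸ hS h1.le)
      have h3 : S (j + 1) = ∅ := Set.subset_empty_iff.1 (hSJ ▸ hS h1)
      rw [h2, h3]
      exact fun h => h rfl
  · obtain ⟨x, w, h1, h2, h3⟩ := Term.solve p.1 p.2 hpne z (hp.2.2 z hz)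
    have hV : p.1.vars ∪ p.2.vars ⊆ (V : Set X) := Set.union_subset hp.1 hp.2.1
    have hx : x ∈ V := hV h1
    have hw : w.vars ⊆ ((V.erase x : Finset X) : Set X) := by
      rw [Finset.coe_erase]
      exact h2.trans (Set.sdiff_subset_sdiff_left hV)
    have hstep : ((Finset.range J).filter fun j =>
        Eqs (V : Set X) (S j) ≠ Eqs (V : Set X) (S (j + 1))) ⊆
        (Finset.range J).filter fun j => Eqs ((V.erase x : Finset X) : Set X) (S j) ≠
          Eqs ((V.erase x : Finset X) : Set X) (S (j + 1)) := by
      intro j hj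
      obtain ⟨hj1, hj2⟩ := Finset.mem_filter.1 hj
      refine Finset.mem_filter.2 ⟨hj1, ?_⟩
      intro heq
      apply hj2
      have hjJ : j < J := Finset.mem_range.1 hj1
      apply Set.Subset.antisymm
      · intro q hq
        obtain ⟨f, hf⟩ : ∃ f : X → Term A X, f = fun y => if y = x then w else Term.var y :=
          ⟨_, rfl⟩
        have hev : ∀ z' ∈ S J, ∀ u : Term A X, (u.subst f).eval z' = u.eval z' := by
          intro z' hz' u
          rw [Term.eval_subst]
          apply Term.eval_congr
          intro y _
          rw [hf]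
          by_cases hy : y = x
          · subst hy
            simp only [if_true]
            exact (h3 z' (hp.2.2 z' hz')).symm
          · simp only [if_neg hy]
            rfl
        have hvars : ∀ u : Term A X, u.vars ⊆ (V : Set X) →
            (u.subst f).vars ⊆ ((V.erase x : Finset X) : Set X) := by
          intro u hu y hy
          obtain ⟨y', hy1, hy2⟩ := (Term.mem_vars_subst f u y).1 hy
          rw [hf] at hy2
          by_cases hyx : y' = x
          · simp only [if_pos hyx] at hy2
            exact hw hy2
          · simp only [if_neg hyx] at hy2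
            have : y = y' := hy2
            subst this
            rw [Finset.coe_erase]
            exact ⟨hu hy1, hyx⟩
        have hq' : (q.1.subst f, q.2.subst f) ∈
            Eqs ((V.erase x : Finset X) : Set X) (S j) := by
          refine ⟨hvars _ hq.1, hvars _ hq.2.1, fun z' hz' => ?_⟩
          have hz'' : z' ∈ S J := hS hjJ.le hz'
          show (q.1.subst f).eval z' = (q.2.subst f).eval z'
          rw [hev z' hz'', hev z' hz'']
          exact hq.2.2 z' hz'
        rw [heq] at hq'
        refine ⟨hq.1, hq.2.1, fun z' hz' => ?_⟩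
        have hz'' : z' ∈ S J := hS hjJ hz'
        have := hq'.2.2 z' hz'
        change (q.1.subst f).eval z' = (q.2.subst f).eval z' at this
        rwa [hev z' hz'', hev z' hz''] at this
      · exact Eqs.anti (hS (Nat.le_succ j))
    refine (Finset.card_le_card hstep).trans ?_
    refine (ih (V.erase x) (Finset.erase_ssubset hx) S hS J).trans ?_
    rw [Finset.card_erase_of_mem hx]
    have := Finset.card_pos.2 ⟨x, hx⟩
    omega

/-! ### Partial evaluation -/

theorem Term.eval?_pos (d : Tree A) {v : X → Option (Tree A)} {t : Term A X}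
    (h : ∀ x ∈ t.vars, (v x).isSome) : t.eval? v = some (t.eval fun x => (v x).getD d) := by
  induction t with
  | var x =>
    have h1 := h x rfl
    obtain ⟨y, hy⟩ := Option.isSome_iff_exists.1 h1
    simp [Term.eval?, Term.eval, hy]
  | node a t ih =>
    have h1 : ∀ i, (t i).eval? v = some ((t i).eval fun x => (v x).getD d) :=
      fun i => ih i fun x hx => h x (Set.mem_iUnion.2 ⟨i, hx⟩)
    have h2 : ∀ i, ((t i).eval? v).isSome := fun i => by rw [h1 i]; rfl
    rw [Term.eval?, dif_pos h2, Term.eval]
    congr 2
    funext i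
    exact Option.get_of_eq_some _ (h1 i)

theorem Term.isSome_eval? {v : X → Option (Tree A)} {t : Term A X}
    (h : (t.eval? v).isSome) : ∀ x ∈ t.vars, (v x).isSome := by
  induction t with
  | var y =>
    intro x hx
    have : x = y := hx
    subst this
    exact h
  | node a t ih =>
    intro x hx
    obtain ⟨i, hi⟩ := Set.mem_iUnion.1 hx
    rw [Term.eval?] at h
    by_cases h1 : ∀ i, ((t i).eval? v).isSome
    · exact ih i (h1 i) x hi
    · rw [dif_neg h1] at h
      exact absurd h (by simp)

theorem Term.eval?_rename (f : X → Y) (v : Y → Option (Tree A)) (t : Term A X) :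
    (t.subst fun x => Term.var (f x)).eval? v = t.eval? fun x => v (f x) := by
  induction t with
  | var x => rfl
  | node a t ih => simp only [Term.subst, Term.eval?, ih]

/-! ### Runs -/

namespace Transducer

variable (M : Transducer A B)

theorem run_node (a : A.Sym) (t : Fin (A.rank a) → Tree A) (q : M.Q) :
    M.run (.node a t) q = (M.rule q a).bind fun ζ => ζ.eval? fun x => M.run (t x.2) x.1 := rfl

theorem isSome_run {a : A.Sym} {t : Fin (A.rank a) → Tree A} {q : M.Q} :
    (M.run (.node a t) q).isSome ↔
      ∃ ζ, M.rule q a = some ζ ∧ ∀ x ∈ ζ.vars, (M.run (t x.2) x.1).isSome := by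
  rw [run_node]
  constructor
  · intro h
    cases hr : M.rule q a with
    | none =>
      rw [hr] at h
      exact absurd h (by simp)
    | some ζ =>
      rw [hr] at h
      exact ⟨ζ, rfl, Term.isSome_eval? h⟩
  · rintro ⟨ζ, hr, h⟩
    rw [hr]
    show (ζ.eval? fun x => M.run (t x.2) x.1).isSome
    have : Nonempty (Tree B) ∨ IsEmpty (Tree B) := (isEmpty_or_nonempty _).symm
    rcases this with ⟨⟨d⟩⟩ | hemp
    · rw [Term.eval?_pos d h]; rfl
    · clear hr
      induction ζ with
      | var x => exact h x rfl
      | node b s ih =>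
        rw [Term.eval?, dif_pos fun i => ih i fun x hx => h x (Set.mem_iUnion.2 ⟨i, hx⟩)]
        rfl

/-- The outputs, with a default value where the output is not defined. -/
def val (d : Tree B) (t : Tree A) (q : M.Q) : Tree B := (M.run t q).getD d

theorem val_node (d : Tree B) {a : A.Sym} {t : Fin (A.rank a) → Tree A} {q : M.Q}
    {ζ : Term B (M.Q × Fin (A.rank a))} (hr : M.rule q a = some ζ)
    (h : ∀ x ∈ ζ.vars, (M.run (t x.2) x.1).isSome) :
    M.val d (.node a t) q = ζ.eval fun x => M.val d (t x.2) x.1 := by
  unfold val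
  rw [run_node, hr]
  show (ζ.eval? fun x => M.run (t x.2) x.1).getD d = _
  rw [Term.eval?_pos d h]
  rfl

/-- The valuations given by the trees of height at most `h` for which the outputs of the states in
`V` are defined. -/
def vals (d : Tree B) (V : Finset M.Q) (h : ℕ) : Set (M.Q → Tree B) :=
  {z | ∃ t : Tree A, t.height ≤ h ∧ (∀ q ∈ V, (M.run t q).isSome) ∧ z = M.val d t}

theorem vals_mono (d : Tree B) (V : Finset M.Q) : Monotone (M.vals d V) := by
  rintro h h' hh z ⟨t, h1, h2, h3⟩
  exact ⟨t, h1.trans hh, h2, h3⟩

theorem height_le {a : A.Sym} {t : Fin (A.rank a) → Tree A} {h : ℕ} :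
    (Tree.node a t).height ≤ h + 1 ↔ ∀ i, (t i).height ≤ h := by
  rw [Tree.height, Nat.succ_le_succ_iff, Finset.sup_le_iff]
  simp

open Classical in
/-- If the sets of equations do not change from `h` to `h + 1`, they do not change from `h + 1` to
`h + 2`. -/
theorem stable_step (d : Tree B) (h : ℕ)
    (H : ∀ V : Finset M.Q, Eqs (V : Set M.Q) (M.vals d V h) =
      Eqs (V : Set M.Q) (M.vals d V (h + 1))) (V : Finset M.Q) :
    Eqs (V : Set M.Q) (M.vals d V (h + 1)) = Eqs (V : Set M.Q) (M.vals d V (h + 2)) := by
  apply Set.Subset.antisymm _ (Eqs.anti (M.vals_mono d V (Nat.le_succ _)))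
  intro p hp
  refine ⟨hp.1, hp.2.1, ?_⟩
  rintro z ⟨t, ht, hdef, rfl⟩
  cases t with
  | node a ts =>
  have hts : ∀ i, (ts i).height ≤ h + 1 := height_le.1 ht
  obtain ⟨ζ, hζ⟩ : ∃ ζ : M.Q → Term B (M.Q × Fin (A.rank a)),
    ζ = fun q => (M.rule q a).getD d.toTerm := ⟨_, rfl⟩
  have hrule : ∀ q ∈ V, M.rule q a = some (ζ q) := by
    intro q hq
    obtain ⟨ξ, h1, -⟩ := M.isSome_run.1 (hdef q hq)
    rw [hζ]
    show M.rule q a = some ((M.rule q a).getD d.toTerm)
    rw [h1]
    rfl
  obtain ⟨W, hW⟩ : ∃ W : Fin (A.rank a) → Finset M.Q,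
      ∀ i q', q' ∈ W i ↔ ∃ q ∈ V, (q', i) ∈ (ζ q).vars := by
    have := M.fin
    refine ⟨fun i => Finset.univ.filter fun q' => ∃ q ∈ V, (q', i) ∈ (ζ q).vars, ?_⟩
    intro i q'
    simp
  have hval : ∀ ts' : Fin (A.rank a) → Tree A, (∀ i, ∀ q ∈ W i, (M.run (ts' i) q).isSome) →
      ∀ u : Term B M.Q, u.vars ⊆ (V : Set M.Q) →
      u.eval (M.val d (.node a ts')) = (u.subst ζ).eval fun x => M.val d (ts' x.2) x.1 := by
    intro ts' hts' u hu
    rw [Term.eval_subst]
    apply Term.eval_congr
    intro q hq
    have hq' : q ∈ V := hu hq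
    apply M.val_node d (hrule q hq')
    intro x hx
    exact hts' x.2 x.1 ((hW _ _).2 ⟨q, hq', hx⟩)
  have hdef' : ∀ ts' : Fin (A.rank a) → Tree A, (∀ i, ∀ q ∈ W i, (M.run (ts' i) q).isSome) →
      ∀ q ∈ V, (M.run (.node a ts') q).isSome := by
    intro ts' hts' q hq
    refine M.isSome_run.2 ⟨ζ q, hrule q hq, ?_⟩
    intro x hx
    exact hts' x.2 x.1 ((hW _ _).2 ⟨q, hq, hx⟩)
  have key : ∀ J : Finset (Fin (A.rank a)), ∀ ts' : Fin (A.rank a) → Tree A,
      (∀ i, ∀ q ∈ W i, (M.run (ts' i) q).isSome) → (∀ i ∈ J, (ts' i).height ≤ h + 1) →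
      (∀ i ∉ J, (ts' i).height ≤ h) →
      ((p.1.subst ζ).eval fun x => M.val d (ts' x.2) x.1) =
        (p.2.subst ζ).eval fun x => M.val d (ts' x.2) x.1 := by
    intro J
    induction J using Finset.induction_on with
    | empty =>
      intro ts' h1 _ h3
      rw [← hval ts' h1 p.1 hp.1, ← hval ts' h1 p.2 hp.2.1]
      refine hp.2.2 _ ⟨.node a ts', height_le.2 fun i => h3 i (by simp), hdef' ts' h1, rfl⟩
    | insert j J hj ih =>
      intro ts' h1 h2 h3
      obtain ⟨g, hg⟩ : ∃ g : M.Q × Fin (A.rank a) → Term B M.Q,
        g = fun x => if x.2 = j then Term.var x.1 else (M.val d (ts' x.2) x.1).toTerm := ⟨_, rfl⟩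
      have hvars : ∀ u : Term B M.Q, u.vars ⊆ (V : Set M.Q) →
          ((u.subst ζ).subst g).vars ⊆ (W j : Set M.Q) := by
        intro u hu y hy
        obtain ⟨x, hx1, hx2⟩ := (Term.mem_vars_subst _ _ _).1 hy
        obtain ⟨q, hq1, hq2⟩ := (Term.mem_vars_subst _ _ _).1 hx1
        rw [hg] at hx2
        by_cases hxj : x.2 = j
        · simp only [if_pos hxj] at hx2
          have : y = x.1 := hx2
          subst this
          refine (hW _ _).2 ⟨q, hu hq1, ?_⟩
          rw [← hxj]
          exact hq2
        · simp only [if_neg hxj] at hx2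
          rw [Tree.vars_toTerm] at hx2
          exact absurd hx2 (Set.notMem_empty _)
      have hev : ∀ (t' : Tree A) (u : Term B M.Q), ((u.subst ζ).subst g).eval (M.val d t') =
          (u.subst ζ).eval fun x => M.val d (Function.update ts' j t' x.2) x.1 := by
        intro t' u
        rw [Term.eval_subst]
        apply Term.eval_congr
        intro x _
        rw [hg]
        by_cases hxj : x.2 = j
        · simp only [if_pos hxj]
          rw [hxj, Function.update_self]
          rfl
        · simp only [if_neg hxj]
          rw [Function.update_of_ne hxj, Tree.eval_toTerm]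
      have hmem : ((p.1.subst ζ).subst g, (p.2.subst ζ).subst g) ∈
          Eqs (W j : Set M.Q) (M.vals d (W j) h) := by
        refine ⟨hvars _ hp.1, hvars _ hp.2.1, ?_⟩
        rintro z ⟨t', ht', hdt', rfl⟩
        show ((p.1.subst ζ).subst g).eval (M.val d t') = ((p.2.subst ζ).subst g).eval (M.val d t')
        rw [hev, hev]
        apply ih
        · intro i q hq
          by_cases hij : i = j
          · subst hij
            rw [Function.update_self]
            exact hdt' q hq
          · rw [Function.update_of_ne hij]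
            exact h1 i q hq
        · intro i hi
          have hij : i ≠ j := fun h => hj (h ▸ hi)
          rw [Function.update_of_ne hij]
          exact h2 i (Finset.mem_insert_of_mem hi)
        · intro i hi
          by_cases hij : i = j
          · subst hij
            rw [Function.update_self]
            exact ht'
          · rw [Function.update_of_ne hij]
            refine h3 i ?_
            intro h
            rcases Finset.mem_insert.1 h with h | h
            · exact hij h
            · exact hi h
      rw [H (W j)] at hmem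
      have := hmem.2.2 _ ⟨ts' j, h2 j (Finset.mem_insert_self _ _), h1 j, rfl⟩
      change ((p.1.subst ζ).subst g).eval (M.val d (ts' j)) =
        ((p.2.subst ζ).subst g).eval (M.val d (ts' j)) at this
      rw [hev, hev, Function.update_eq_self] at this
      exact this
  have hWts : ∀ i, ∀ q ∈ W i, (M.run (ts i) q).isSome := by
    intro i q' hq'
    obtain ⟨q, hq, hx⟩ := (hW _ _).1 hq'
    obtain ⟨ξ, h1, h2⟩ := M.isSome_run.1 (hdef q hq)
    have h3 : ζ q = ξ := by
      have := (hrule q hq).symm.trans h1
      exact Option.some.inj this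
    rw [h3] at hx
    exact h2 _ hx
  rw [hval ts hWts p.1 hp.1, hval ts hWts p.2 hp.2.1]
  exact key Finset.univ ts hWts (fun i _ => hts i) fun i hi => absurd (Finset.mem_univ i) hi

theorem stable (d : Tree B) (h : ℕ)
    (H : ∀ V : Finset M.Q, Eqs (V : Set M.Q) (M.vals d V h) =
      Eqs (V : Set M.Q) (M.vals d V (h + 1))) (k : ℕ) :
    (∀ V : Finset M.Q, Eqs (V : Set M.Q) (M.vals d V (h + k)) =
      Eqs (V : Set M.Q) (M.vals d V (h + k + 1))) ∧
    ∀ V : Finset M.Q, Eqs (V : Set M.Q) (M.vals d V h) =
      Eqs (V : Set M.Q) (M.vals d V (h + k)) := by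
  induction k with
  | zero => exact ⟨H, fun _ => rfl⟩
  | succ k ih =>
    exact ⟨M.stable_step d (h + k) ih.1, fun V => (ih.2 V).trans (ih.1 V)⟩

/-! ### The domains -/

/-- The sets of states with defined output on some tree of height at most `h`. -/
def types (h : ℕ) : Set (Set M.Q) :=
  {D | ∃ t : Tree A, t.height ≤ h ∧ ∀ q, q ∈ D ↔ (M.run t q).isSome}

theorem types_mono : Monotone M.types := by
  rintro h h' hh D ⟨t, h1, h2⟩
  exact ⟨t, h1.trans hh, h2⟩

theorem types_step (h : ℕ) (H : M.types h = M.types (h + 1)) :
    M.types (h + 1) = M.types (h + 2) := by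
  apply Set.Subset.antisymm (M.types_mono (Nat.le_succ _))
  rintro D ⟨t, ht, hD⟩
  cases t with
  | node a ts =>
  have hts : ∀ i, (ts i).height ≤ h + 1 := height_le.1 ht
  have : ∀ i, ∃ t' : Tree A, t'.height ≤ h ∧
      ∀ q, (M.run (ts i) q).isSome ↔ (M.run t' q).isSome := by
    intro i
    have h1 : {q | (M.run (ts i) q).isSome} ∈ M.types (h + 1) :=
      ⟨ts i, hts i, fun q => Iff.rfl⟩
    rw [← H] at h1
    exact h1
  choose ts' hts' hiff using this
  refine ⟨.node a ts', height_le.2 hts', fun q => (hD q).trans ?_⟩
  rw [M.isSome_run, M.isSome_run]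
  constructor
  · rintro ⟨ζ, h1, h2⟩
    exact ⟨ζ, h1, fun x hx => (hiff _ _).1 (h2 x hx)⟩
  · rintro ⟨ζ, h1, h2⟩
    exact ⟨ζ, h1, fun x hx => (hiff _ _).2 (h2 x hx)⟩

theorem types_stable (h : ℕ) (H : M.types h = M.types (h + 1)) (k : ℕ) :
    M.types (h + k) = M.types (h + k + 1) ∧ M.types h = M.types (h + k) := by
  induction k with
  | zero => exact ⟨H, rfl⟩
  | succ k ih => exact ⟨M.types_step (h + k) ih.1, ih.2.trans ih.1⟩

end Transducer

open Classical in
theorem set_jumps {α : Type} [Fintype α] (F : ℕ → Set α) (hF : Monotone F) (N : ℕ) :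
    ((Finset.range N).filter fun j => F j ≠ F (j + 1)).card ≤ (F N).ncard := by
  induction N with
  | zero => simp
  | succ N ih =>
    rw [Finset.range_add_one, Finset.filter_insert]
    split_ifs with h
    · refine (Finset.card_insert_le _ _).trans ?_
      have h1 : F N ⊂ F (N + 1) := lt_of_le_of_ne (hF (Nat.le_succ N)) h
      have h2 := Set.ncard_lt_ncard h1 (Set.toFinite _)
      omega
    · exact ih.trans (Set.ncard_le_ncard (hF (Nat.le_succ N)) (Set.toFinite _))

/-- There is a small height at which nothing changes. -/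
theorem exists_stable (M : Transducer A B) (d : Tree B) :
    ∃ h ≤ (M.states + 2) * 2 ^ M.states, (∀ V : Finset M.Q, Eqs (V : Set M.Q) (M.vals d V h) =
      Eqs (V : Set M.Q) (M.vals d V (h + 1))) ∧ M.types h = M.types (h + 1) := by
  classical
  let _ := M.fin
  by_contra hcon
  push Not at hcon
  obtain ⟨N, hN⟩ : ∃ N, N = (M.states + 2) * 2 ^ M.states + 1 := ⟨_, rfl⟩
  have hsub : Finset.range N ⊆ ((Finset.univ : Finset (Finset M.Q)).biUnion fun V =>
      (Finset.range N).filter fun j => Eqs (V : Set M.Q) (M.vals d V j) ≠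
        Eqs (V : Set M.Q) (M.vals d V (j + 1))) ∪
      (Finset.range N).filter fun j => M.types j ≠ M.types (j + 1) := by
    intro j hj
    rw [Finset.mem_union, Finset.mem_biUnion]
    have hj' : j < N := Finset.mem_range.1 hj
    by_cases hV : ∀ V : Finset M.Q, Eqs (V : Set M.Q) (M.vals d V j) =
      Eqs (V : Set M.Q) (M.vals d V (j + 1))
    · exact Or.inr (Finset.mem_filter.2 ⟨hj, hcon j (by omega) hV⟩)
    · push Not at hV
      obtain ⟨V, hV⟩ := hV
      exact Or.inl ⟨V, Finset.mem_univ _, Finset.mem_filter.2 ⟨hj, hV⟩⟩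
  have h1 := (Finset.card_le_card hsub).trans (Finset.card_union_le _ _)
  rw [Finset.card_range] at h1
  have h2 : ((Finset.univ : Finset (Finset M.Q)).biUnion fun V =>
      (Finset.range N).filter fun j => Eqs (V : Set M.Q) (M.vals d V j) ≠
        Eqs (V : Set M.Q) (M.vals d V (j + 1))).card ≤ 2 ^ M.states * (M.states + 1) := by
    refine Finset.card_biUnion_le.trans ?_
    have : ∀ V ∈ (Finset.univ : Finset (Finset M.Q)), ((Finset.range N).filter fun j =>
        Eqs (V : Set M.Q) (M.vals d V j) ≠ Eqs (V : Set M.Q) (M.vals d V (j + 1))).card ≤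
        M.states + 1 := by
      intro V _
      refine (jumps V _ (M.vals_mono d V) N).trans ?_
      have : V.card ≤ M.states := Finset.card_le_univ V
      omega
    refine (Finset.sum_le_card_nsmul _ _ _ this).trans ?_
    rw [Finset.card_univ, Fintype.card_finset, smul_eq_mul]
    exact le_rfl
  have h3 : ((Finset.range N).filter fun j => M.types j ≠ M.types (j + 1)).card ≤
      2 ^ M.states := by
    refine (set_jumps M.types M.types_mono N).trans ?_
    refine (Set.ncard_le_ncard (Set.subset_univ _) (Set.toFinite _)).trans ?_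
    rw [Set.ncard_univ, Nat.card_eq_fintype_card, Fintype.card_set]
    exact le_rfl
  have h4 : 2 ^ M.states * (M.states + 1) + 2 ^ M.states = (M.states + 2) * 2 ^ M.states := by
    ring
  omega

/-! ### Two transducers -/

/-- Two transducers side by side. -/
def Transducer.sum (M N : Transducer A B) : Transducer A B where
  Q := M.Q ⊕ N.Q
  fin := @instFintypeSum _ _ M.fin N.fin
  init := Sum.inl M.init
  rule := fun q a => match q with
    | .inl q => (M.rule q a).map fun ζ => ζ.subst fun x => Term.var (Sum.inl x.1, x.2)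
    | .inr q => (N.rule q a).map fun ζ => ζ.subst fun x => Term.var (Sum.inr x.1, x.2)

theorem Transducer.sum_inl (M N : Transducer A B) (t : Tree A) (q : M.Q) :
    (M.sum N).run t (Sum.inl q : M.Q ⊕ N.Q) = M.run t q := by
  induction t generalizing q with
  | node a t ih =>
    show ((M.rule q a).map fun ζ => ζ.subst fun x => Term.var (Sum.inl x.1, x.2)).bind
      (fun ζ => ζ.eval? fun x : (M.Q ⊕ N.Q) × Fin (A.rank a) => (M.sum N).run (t x.2) x.1) =
      (M.rule q a).bind fun ζ => ζ.eval? fun x => M.run (t x.2) x.1
    cases M.rule q a with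
    | none => rfl
    | some ζ =>
      show (ζ.subst fun x => Term.var (Sum.inl x.1, x.2)).eval?
        (fun x : (M.Q ⊕ N.Q) × Fin (A.rank a) => (M.sum N).run (t x.2) x.1) =
        ζ.eval? fun x => M.run (t x.2) x.1
      rw [Term.eval?_rename fun x : M.Q × Fin (A.rank a) => ((Sum.inl x.1 : M.Q ⊕ N.Q), x.2)]
      congr 1
      funext x
      exact ih x.2 x.1

theorem Transducer.sum_inr (M N : Transducer A B) (t : Tree A) (q : N.Q) :
    (M.sum N).run t (Sum.inr q : M.Q ⊕ N.Q) = N.run t q := by
  induction t generalizing q with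
  | node a t ih =>
    show ((N.rule q a).map fun ζ => ζ.subst fun x => Term.var (Sum.inr x.1, x.2)).bind
      (fun ζ => ζ.eval? fun x : (M.Q ⊕ N.Q) × Fin (A.rank a) => (M.sum N).run (t x.2) x.1) =
      (N.rule q a).bind fun ζ => ζ.eval? fun x => N.run (t x.2) x.1
    cases N.rule q a with
    | none => rfl
    | some ζ =>
      show (ζ.subst fun x => Term.var (Sum.inr x.1, x.2)).eval?
        (fun x : (M.Q ⊕ N.Q) × Fin (A.rank a) => (M.sum N).run (t x.2) x.1) =
        ζ.eval? fun x => N.run (t x.2) x.1
      rw [Term.eval?_rename fun x : N.Q × Fin (A.rank a) => ((Sum.inr x.1 : M.Q ⊕ N.Q), x.2)]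
      congr 1
      funext x
      exact ih x.2 x.1

theorem exists_sum (M₁ M₂ : Transducer A B) :
    ∃ (M : Transducer A B) (i₁ : M₁.Q → M.Q) (i₂ : M₂.Q → M.Q),
      M.states = M₁.states + M₂.states ∧ (∀ t q, M.run t (i₁ q) = M₁.run t q) ∧
        ∀ t q, M.run t (i₂ q) = M₂.run t q :=
  ⟨M₁.sum M₂, fun q => (Sum.inl q : M₁.Q ⊕ M₂.Q), fun q => (Sum.inr q : M₁.Q ⊕ M₂.Q),
    @Fintype.card_sum _ _ M₁.fin M₂.fin, M₁.sum_inl M₂, M₁.sum_inr M₂⟩

/-- The height bound `H`. -/
def H (n₁ n₂ : ℕ) : ℕ := (n₁ + n₂ + 2) * 2 ^ (n₁ + n₂)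

/-- **Main result.**  Two deterministic top-down tree transducers with `n₁` and `n₂` states which
agree on all input trees of height at most `H n₁ n₂` are equivalent. -/
theorem result (A B : Ranked) (M₁ M₂ : Transducer A B)
    (hagree : ∀ s : Tree A, s.height ≤ H M₁.states M₂.states → M₁.tau s = M₂.tau s) :
    ∀ s : Tree A, M₁.tau s = M₂.tau s := by
  classical
  intro s
  rcases isEmpty_or_nonempty (Tree B) with hemp | ⟨⟨d⟩⟩
  · have h1 : ∀ o o' : Option (Tree B), o = o' := by
      intro o o'
      cases o with
      | some x => exact hemp.elim x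
      | none =>
        cases o' with
        | some x => exact hemp.elim x
        | none => rfl
    exact h1 _ _
  obtain ⟨M, i₁, i₂, hstates, hi₁, hi₂⟩ := exists_sum M₁ M₂
  obtain ⟨h, hle, hE, hT⟩ := exists_stable M d
  rw [hstates] at hle
  obtain ⟨k, hk⟩ : ∃ k, s.height ≤ h + k := ⟨s.height, by omega⟩
  -- the domains
  have hdom : (M₁.run s M₁.init).isSome ↔ (M₂.run s M₂.init).isSome := by
    rw [← hi₁, ← hi₂]
    have h1 : {q | (M.run s q).isSome} ∈ M.types (h + k) := ⟨s, hk, fun q => Iff.rfl⟩
    rw [← (M.types_stable h hT k).2] at h1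
    obtain ⟨t, ht, htD⟩ := h1
    have h2 := hagree t (ht.trans hle)
    unfold Transducer.tau at h2
    rw [← hi₁, ← hi₂] at h2
    have h3 := htD (i₁ M₁.init)
    have h4 := htD (i₂ M₂.init)
    rw [h2] at h3
    exact h3.trans h4.symm
  unfold Transducer.tau
  by_cases hs : (M₁.run s M₁.init).isSome
  · -- the outputs
    have hs' := hdom.1 hs
    obtain ⟨V, hV⟩ : ∃ V : Finset M.Q, V = {i₁ M₁.init, i₂ M₂.init} := ⟨_, rfl⟩
    have hin1 : i₁ M₁.init ∈ V := by rw [hV]; simp
    have hin2 : i₂ M₂.init ∈ V := by rw [hV]; simp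
    have hp : ((Term.var (i₁ M₁.init), Term.var (i₂ M₂.init)) : Term B M.Q × Term B M.Q) ∈
        Eqs (V : Set M.Q) (M.vals d V h) := by
      refine ⟨?_, ?_, ?_⟩
      · intro x hx
        have : x = i₁ M₁.init := hx
        rw [this]
        exact hin1
      · intro x hx
        have : x = i₂ M₂.init := hx
        rw [this]
        exact hin2
      · rintro z ⟨t, ht, -, rfl⟩
        show (M.run t (i₁ M₁.init)).getD d = (M.run t (i₂ M₂.init)).getD d
        rw [hi₁, hi₂]
        have h2 := hagree t (ht.trans hle)
        unfold Transducer.tau at h2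
        rw [h2]
    rw [(M.stable d h hE k).2 V] at hp
    have hV' : ∀ q ∈ V, (M.run s q).isSome := by
      intro q hq
      rw [hV, Finset.mem_insert, Finset.mem_singleton] at hq
      rcases hq with rfl | rfl
      · rw [hi₁]; exact hs
      · rw [hi₂]; exact hs'
    have h5 := hp.2.2 _ ⟨s, hk, hV', rfl⟩
    change (M.run s (i₁ M₁.init)).getD d = (M.run s (i₂ M₂.init)).getD d at h5
    rw [hi₁, hi₂] at h5
    obtain ⟨x, hx⟩ := Option.isSome_iff_exists.1 hs
    obtain ⟨y, hy⟩ := Option.isSome_iff_exists.1 hs'
    rw [hx, hy] at h5 ⊢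
    have : x = y := h5
    rw [this]
  · have hs' : ¬ (M₂.run s M₂.init).isSome := fun h => hs (hdom.2 h)
    rw [Option.not_isSome_iff_eq_none] at hs hs'
    rw [hs, hs']

end Pool.Agent.Results.MP_460c01_lc.StateOnlyBound
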